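import Pool.Agent.MM7.Defs
import Pool.Agent.K3M.Law8
import Pool.Agent.K3M.ThSys

/-! # MM7, Part A: the Mahler measure as an integral of theta functions

Auxiliary declarations are in the namespace `MM7A`; only the target statements are in `MM7`. -/

open Real MeasureTheory Set

theorem MM7A.Psi_sys {y : ℝ} (hy : 0 < y) :
    K3MTh.eth y * √(K3MTh.hth y) = MM7.Psi y := (K3MTh.Psi_eq hy).symm

theorem MM7A.integrable_pow (n : ℕ) :
    IntegrableOn (fun y => y ^ n * Real.log (MM7.ww y) * MM7.Psi y) (Ioi 1) := by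
  refine (K3MTh.sys.int_pow n).congr ?_
  filter_upwards [ae_restrict_mem measurableSet_Ioi] with y hy
  have hy0 : (0:ℝ) < y := lt_trans one_pos hy
  rw [MM7A.Psi_sys hy0]
  ring

namespace MM7

theorem mahler_eq :
    mahler = -(1/2) * ∫ y in Ioi (Real.sqrt 7), (y^2-1) * Real.log (ww y) * Psi y := by
  rw [K3MTh.sys.mahler_eq]
  congr 1
  refine setIntegral_congr_fun measurableSet_Ioi fun y hy => ?_
  have hy0 : (0:ℝ) < y := lt_of_le_of_lt (Real.sqrt_nonneg 7) hy
  simp only [MM7A.Psi_sys hy0]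

theorem log_int_zero : ∫ y in Ioi (1:ℝ), (y^2-1) * Real.log (ww y) * Psi y = 0 := by
  rw [← K3MTh.sys.log_zero]
  refine setIntegral_congr_fun measurableSet_Ioi fun y hy => ?_
  have hy0 : (0:ℝ) < y := lt_trans one_pos hy
  simp only [Pool.Agent.K3M.rho]
  rw [MM7A.Psi_sys hy0]
  ring

theorem ww_pos {y : ℝ} (hy : 0 < y) : 0 < ww y := K3MTh.ww_pos hy

theorem ww_continuousOn : ContinuousOn ww (Ioi 0) := K3MTh.ww_continuousOn

theorem Psi_continuousOn : ContinuousOn Psi (Ioi 0) := K3MTh.Psi_continuousOn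

theorem ww_inv {y : ℝ} (hy : 0 < y) : ww (1 / y) = ww y := K3MTh.ww_inv hy

theorem Psi_inv {y : ℝ} (hy : 0 < y) : Psi (1 / y) = -(y ^ 4) * Psi y := K3MTh.Psi_inv hy

theorem integrable_y2 :
    IntegrableOn (fun y => y ^ 2 * Real.log (ww y) * Psi y) (Ioi 1) := MM7A.integrable_pow 2

theorem integrable_1 :
    IntegrableOn (fun y => Real.log (ww y) * Psi y) (Ioi 1) := by
  have := MM7A.integrable_pow 0
  simpa using this

theorem log_ww_Psi_bound :
    ∃ C, ∀ y, 1 ≤ y → |Real.log (ww y) * Psi y| ≤ C * Real.exp (-y) := by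
  obtain ⟨C, hC⟩ := K3MTh.sys.logw_psi_bd
  refine ⟨C, fun y hy => ?_⟩
  rw [← MM7A.Psi_sys (lt_of_lt_of_le one_pos hy)]
  exact hC y hy

end MM7
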